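import Pool.Agent.H725R3.SConv.Lower

set_option autoImplicit false

/-!
# A stochastic convolution in a Hilbert space without continuous version

We answer Q1 in the negative, already for Hilbert spaces.

Definitions (in `Pool/Agent/H725R3/SConv/Defs.lean`; time is indexed by `ℝ`, only `[0,T]` matters):
* `IsBM P F T W`: `W` is a standard real Brownian motion on `[0,T]` with respect to the
  filtration `F`: adapted, `W_0 = 0` a.s., a.s. continuous paths, `W_t - W_s` has law `N(0,t-s)` and
  is independent of `F_s`;
* `SimpleProc P F t X`: finite families of intervals `(a_i,b_i] ⊆ [0,t]` and of square integrable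
  `F_{a_i}`-measurable random variables `ξ_i`, standing for `s ↦ ∑ 1_{(a_i,b_i]}(s) ξ_i`
  (`SimpleProc.eval`), with elementary integral `∑ (W_{b_i} - W_{a_i}) ξ_i` (`SimpleProc.integral`);
* `IsItoIntegral P F W t φ Y`: `Y` is a version of the Ito integral `∫_0^t φ_s dW_s`: it is
  the `L²`-limit of the elementary integrals of simple processes converging to `φ` in
  `L²(Ω × [0,t])`;
* `IsC0Semigroup S`: `S` is a `C_0`-semigroup of bounded operators.

The example. For `m ≥ 0` let `H_m` be `R^(2^m)` with a norm for which the unit vectors are
bounded by `3`, the basis has a bounded basis constant (so that every decreasing diagonal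
multiplier with values in `[0,1]` has norm at most `10`) and the functional `x ↦ ∑ x_k` has norm at
most `(10/9)^m`. `X` is the `ℓ²`-sum of the `H_m` and `S(t)` acts on `H_m` by the diagonal
multiplier `exp(-r_{m,k} t)` with rates `r_{m,k}` rapidly increasing in `k`. The process `g` acts
in disjoint time blocks `m = 0,1,2,…`; in block `m` it treats the coordinates `k = 0, 1, …` of `H_m`
one after the other, the slowly relaxing ones first: it kicks the coordinate during very short time
intervals, waiting after each failed attempt until the coordinate has relaxed, until one kick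
succeeds (the normalised increment of `W` is at least `1`); then it passes to the next, faster
relaxing, coordinate. In the end, with probability at least `1/2`, the `2^m` coordinates are of
order `(3/5)^m` on average at the same time, so that the norm is of order `(27/25)^m`, while the
total energy used in the block is of order `(18/25)^m`.
-/

open MeasureTheory ProbabilityTheory Set Pool.Agent.H725R3.SConv
open scoped ENNReal

universe u

/-- **Negative answer to Q1.** For every `T > 0` there are a real Hilbert space `X` and a
uniformly bounded `C_0`-semigroup `S` on `X` such that for every filtered probability space with a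
Brownian motion `W` there is a progressively measurable `g ∈ L²(Ω; L²(0,T;X))` for which the
stochastic convolution `u(t) = ∫_0^t S(t-s) g_s dW_s` exists (and is a.s. unique) for each
`t ∈ [0,T]` and no version of it has almost surely continuous paths on `[0,T]`. -/
theorem Pool.Agent.Results.MP_f3f192_pr.NoContinuousVersion.result (T : ℝ) (hT : 0 < T) :
    ∃ (X : Type) (_ : NormedAddCommGroup X) (_ : InnerProductSpace ℝ X) (_ : CompleteSpace X)
      (S : ℝ → X →L[ℝ] X), IsC0Semigroup S ∧ (∀ t, ‖S t‖ ≤ 10) ∧
      ∀ (Ω : Type u) (mΩ : MeasurableSpace Ω) (P : Measure Ω) (F : Filtration ℝ mΩ)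
        (W : ℝ → Ω → ℝ), IsProbabilityMeasure P → IsBM P F T W →
        ∃ g : ℝ → Ω → X, IsStronglyProgressive F g ∧
          (∫⁻ ω, (∫⁻ s in Icc 0 T, ‖g s ω‖ₑ ^ 2) ∂P) < ∞ ∧
          (∀ t ∈ Icc 0 T, ∃ Y : Ω → X,
            IsItoIntegral P F W t (fun s ω => S (t - s) (g s ω)) Y ∧
            ∀ Y' : Ω → X, IsItoIntegral P F W t (fun s ω => S (t - s) (g s ω)) Y' →
              Y' =ᵐ[P] Y) ∧
          ∀ u : ℝ → Ω → X,
            (∀ t ∈ Icc 0 T, IsItoIntegral P F W t (fun s ω => S (t - s) (g s ω)) (u t)) →
            ¬ ∀ᵐ ω ∂P, ContinuousOn (fun t => u t ω) (Icc 0 T) := by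
  obtain ⟨c⟩ := exists_par hT
  refine ⟨XX, inferInstance, inferInstance, inferInstance, c.S, c.isC0, fun t => ?_, ?_⟩
  · exact (c.S t).opNorm_le_bound (by norm_num) (SS_norm_le c.r c.r0 c.rmono t)
  · intro Ω mΩ P F W hP hW
    refine ⟨c.g W, c.prog_g hW, c.g_L2 hW, fun t ht => ?_, fun u hu => ?_⟩
    · obtain ⟨Y, hY⟩ := c.exists_conv hW ht.2
      exact ⟨Y, hY, fun Y' hY' => hY.unique ht.2 hW hY' (c.sm_Sg hW t)⟩
    · exact c.no_continuous hW fun t h0 h1 => hu t ⟨h0, h1⟩
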